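import Pool.Agent.H0.Canon.Star2

set_option autoImplicit false
set_option linter.unusedSectionVars false
open MeasureTheory Filter Topology Set

namespace Pool.Agent.Canon

/-- the term of the series in the exponent -/
noncomputable def term (ω : ℝ → ℝ) (a w : ℂ) (j : ℕ) : ℂ :=
  (a⁻¹ ^ (j + 1) * (((∫ x in Set.Ioc 0 ‖a‖, ω x * x ^ j : ℝ)) : ℂ) -
      ((starRingEnd ℂ) a)⁻¹ ^ (j + 1) *
        (((∫ x in Set.Ioi ‖a‖, ω x * (x ^ (j + 2))⁻¹ : ℝ)) : ℂ)) *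
    w ^ (j + 1) / (((j : ℂ) + 1) * (((∫ x in Set.Ioi 0, ω x * x ^ j : ℝ)) : ℂ))

/-- the factor -/
noncomputable def fac (ω : ℝ → ℝ) (a w : ℂ) : ℂ :=
  (1 - w / a) * Complex.exp (-((((∫ x in Set.Ioi ‖a‖, ω x / x : ℝ)) : ℂ) - ∑' j : ℕ, term ω a w j))

noncomputable def II (ω : ℝ → ℝ) (j : ℕ) (r : ℝ) : ℝ := ∫ x in Set.Ioc 0 r, ω x * x ^ j
noncomputable def JJ (ω : ℝ → ℝ) (j : ℕ) (r : ℝ) : ℝ := ∫ x in Set.Ioi r, ω x * (x ^ (j + 2))⁻¹

lemma term_eq (ω : ℝ → ℝ) (a w : ℂ) (j : ℕ) : term ω a w j =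
    (a⁻¹ ^ (j + 1) * ((II ω j ‖a‖ : ℝ) : ℂ) - ((starRingEnd ℂ) a)⁻¹ ^ (j + 1) *
      ((JJ ω j ‖a‖ : ℝ) : ℂ)) * w ^ (j + 1) / (((j : ℂ) + 1) * ((mm ω j : ℝ) : ℂ)) := rfl

lemma fac_eq (ω : ℝ → ℝ) (a w : ℂ) : fac ω a w =
    (1 - w / a) * Complex.exp (-(((LL ω ‖a‖ : ℝ) : ℂ) - ∑' j : ℕ, term ω a w j)) := rfl

lemma fac_ne (ω : ℝ → ℝ) (a w : ℂ) (ha : a ≠ 0) (h : w ≠ a) : fac ω a w ≠ 0 := by
  rw [fac_eq]
  apply mul_ne_zero _ (Complex.exp_ne_zero _)
  rw [sub_ne_zero]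
  intro h1
  apply h
  rw [eq_div_iff ha, one_mul] at h1
  exact h1.symm

variable {ω : ℝ → ℝ} {R : ℝ} (W : Wt ω R)
include W

lemma II_eq (j : ℕ) (r : ℝ) (hr : 0 ≤ r) : II ω j r = mm ω j - TT ω j r := by
  have := T_sub W j 0 r le_rfl hr
  rw [intervalIntegral.integral_of_le hr] at this
  unfold II
  have e : TT ω j 0 = mm ω j := rfl
  rw [e] at this
  linarith

lemma II_nonneg (j : ℕ) (r : ℝ) : 0 ≤ II ω j r :=
  setIntegral_nonneg measurableSet_Ioc fun x hx => by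
    have hx0 : (0 : ℝ) < x := hx.1
    have := W.hpos x hx0.le
    positivity

lemma II_le (j : ℕ) (r : ℝ) (hr : 0 ≤ r) : II ω j r ≤ r ^ j * mm ω 0 := by
  have h1 : II ω j r ≤ r ^ j * ∫ x in Ioc 0 r, ω x * x ^ 0 := by
    rw [← integral_const_mul]
    apply setIntegral_mono_on
    · exact (W.hint j).mono_set (fun x hx => hx.1)
    · exact ((W.hint 0).mono_set (fun x hx => hx.1)).const_mul _
    · exact measurableSet_Ioc
    · intro x hx
      have hw := W.hpos x hx.1.le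
      rw [pow_zero, mul_one, mul_comm]
      exact mul_le_mul_of_nonneg_right (pow_le_pow_left₀ hx.1.le hx.2 j) hw.le
  exact h1.trans (mul_le_mul_of_nonneg_left (piece_le W 0 0 r le_rfl) (by positivity))

lemma JJ_bounds (j : ℕ) (r : ℝ) (hr : 0 < r) :
    0 ≤ JJ ω j r ∧ JJ ω j r ≤ (r ^ (j + 1))⁻¹ * LL ω r := by
  constructor
  · apply setIntegral_nonneg measurableSet_Ioi fun x hx => ?_
    have hx0 : (0 : ℝ) < x := hr.trans hx
    have := W.hpos x hx0.le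
    positivity
  · unfold JJ LL
    rw [← integral_const_mul]
    have hle : ∀ x ∈ Ioi r, ω x * (x ^ (j + 2))⁻¹ ≤ (r ^ (j + 1))⁻¹ * (ω x / x) := by
      intro x hx
      have hx' : r < x := hx
      have hx0 : 0 < x := hr.trans hx'
      have hw := W.hpos x hx0.le
      have e : ω x * (x ^ (j + 2))⁻¹ = (x ^ (j + 1))⁻¹ * (ω x / x) := by
        rw [pow_succ x (j + 1), mul_inv]; ring
      rw [e]
      apply mul_le_mul_of_nonneg_right _ (by positivity)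
      exact inv_anti₀ (by positivity) (pow_le_pow_left₀ hr.le hx'.le _)
    have hint2 := (int_L W r hr).const_mul ((r ^ (j + 1))⁻¹)
    have hint1 : IntegrableOn (fun x : ℝ => ω x * (x ^ (j + 2))⁻¹) (Ioi r) := by
      refine Integrable.mono' hint2 ?_ ?_
      · apply ContinuousOn.aestronglyMeasurable _ measurableSet_Ioi
        apply ContinuousOn.mul (W.hc.mono (fun x hx => mem_Ici.mpr (hr.trans hx).le))
        apply ContinuousOn.inv₀ (by fun_prop)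
        intro x hx
        have : 0 < x := hr.trans hx
        positivity
      · filter_upwards [ae_restrict_mem measurableSet_Ioi] with x hx
        have hx0 : (0 : ℝ) < x := hr.trans hx
        have := W.hpos x hx0.le
        rw [Real.norm_of_nonneg (by positivity)]
        exact hle x hx
    exact setIntegral_mono_on hint1 hint2 measurableSet_Ioi hle

/-- growth of moments -/
lemma geom (b : ℝ) (hb : 0 < b) (j : ℕ) :
    b ^ (j + 1) / mm ω j ≤ b / ω (2 * b + 1) * (1 / 2) ^ j := by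
  have h1 := m_lower W j (2 * b) (by positivity)
  have h2 := m_pos W j
  have h3 := W.hpos (2 * b + 1) (by positivity)
  rw [div_le_iff₀ h2]
  generalize ω (2 * b + 1) = q at *
  calc b ^ (j + 1) = b / q * (1 / 2) ^ j * (q * (2 * b) ^ j) := by
        rw [mul_pow, one_div, inv_pow]
        field_simp
        ring
    _ ≤ _ := mul_le_mul_of_nonneg_left h1 (by positivity)

/-- near infinity the factor is `exp` of something small -/
theorem near_inf (ρ₀ : ℝ) (hρ₀ : 0 < ρ₀) : ∃ r₁ C : ℝ, 0 < r₁ ∧ 0 ≤ C ∧ ∀ a : ℂ, r₁ < ‖a‖ →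
    ∀ w : ℂ, ‖w‖ ≤ ρ₀ → ∃ E : ℂ, fac ω a w = Complex.exp (-E) ∧ ‖E‖ ≤ C * LL ω ‖a‖ := by
  have hR := W.hR
  set ρ := 2 * ρ₀ + R + 1 with hρ
  obtain ⟨C0, hC0, hstar⟩ := star W ρ (by linarith)
  have hw0 := W.hpos (2 * ρ₀ + 1) (by positivity)
  set C1 := ρ₀ / ω (2 * ρ₀ + 1) with hC1
  have hC10 : 0 < C1 := by positivity
  refine ⟨ρ, 1 + 2 * (C0 + C1), by positivity, by positivity, fun a ha w hw => ?_⟩
  set r := ‖a‖ with hr
  have hρ0 : 0 < ρ := by positivity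
  have hr0 : 0 < r := hρ0.trans ha
  have hr1 : 1 ≤ r := by linarith
  have ha0 : a ≠ 0 := by
    rw [← norm_pos_iff]; exact hr0
  have hL := L_pos W r hr0
  -- correction terms
  set c : ℕ → ℂ := fun j => w ^ (j + 1) / (((j : ℂ) + 1) * ((mm ω j : ℝ) : ℂ)) *
    (a⁻¹ ^ (j + 1) * ((TT ω j r : ℝ) : ℂ) + ((starRingEnd ℂ) a)⁻¹ ^ (j + 1) * ((JJ ω j r : ℝ) : ℂ))
    with hc
  have hcb : ∀ j, ‖c j‖ ≤ ((C0 + C1) * LL ω r) * (1 / 2) ^ j := by
    intro j
    have hm := m_pos W j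
    have hT := T_nonneg W j r hr0.le
    obtain ⟨hJ0, hJ1⟩ := JJ_bounds W j r hr0
    have hj1 : ‖((j : ℂ) + 1)‖ = (j : ℝ) + 1 := by
      have : ((j : ℂ) + 1) = (((j : ℝ) + 1 : ℝ) : ℂ) := by push_cast; rfl
      rw [this, Complex.norm_real, Real.norm_of_nonneg (by positivity)]
    have h1 : ‖c j‖ ≤ ρ₀ ^ (j + 1) / (((j : ℝ) + 1) * mm ω j) *
        ((r ^ (j + 1))⁻¹ * TT ω j r + (r ^ (j + 1))⁻¹ * JJ ω j r) := by
      rw [hc]
      simp only
      rw [norm_mul, norm_div, norm_pow, norm_mul, hj1, Complex.norm_real,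
        Real.norm_of_nonneg hm.le]
      apply mul_le_mul
      · gcongr
      · refine (norm_add_le _ _).trans ?_
        rw [norm_mul, norm_mul, norm_pow, norm_pow, norm_inv, norm_inv, Complex.norm_real,
          Complex.norm_real, Real.norm_of_nonneg hT, Real.norm_of_nonneg hJ0,
          RCLike.norm_conj, inv_pow]
      · positivity
      · positivity
    refine h1.trans ?_
    have p1 : ρ₀ ^ (j + 1) / (((j : ℝ) + 1) * mm ω j) * ((r ^ (j + 1))⁻¹ * TT ω j r)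
        ≤ C0 * LL ω r * (1 / 2) ^ j := by
      have hs := hstar j r ha
      have h3 : ρ₀ ^ (j + 1) / (((j : ℝ) + 1) * mm ω j) * ((r ^ (j + 1))⁻¹ * TT ω j r)
          ≤ ρ₀ ^ (j + 1) / (((j : ℝ) + 1) * mm ω j) * ((r ^ (j + 1))⁻¹ *
            (C0 * (r / ρ) ^ (j + 1) * (((j : ℝ) + 1) * mm ω j) * LL ω r)) := by
        gcongr
      refine h3.trans ?_
      have e : ρ₀ ^ (j + 1) / (((j : ℝ) + 1) * mm ω j) * ((r ^ (j + 1))⁻¹ *
            (C0 * (r / ρ) ^ (j + 1) * (((j : ℝ) + 1) * mm ω j) * LL ω r))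
          = C0 * LL ω r * (ρ₀ / ρ) ^ (j + 1) := by
        rw [div_pow, div_pow]
        field_simp
      rw [e]
      apply mul_le_mul_of_nonneg_left _ (by positivity)
      have h4 : ρ₀ / ρ ≤ 1 / 2 := by
        rw [div_le_div_iff₀ hρ0 (by norm_num)]
        linarith
      calc (ρ₀ / ρ) ^ (j + 1) ≤ (1 / 2) ^ (j + 1) := pow_le_pow_left₀ (by positivity) h4 _
        _ ≤ (1 / 2) ^ j := pow_le_pow_of_le_one (by norm_num) (by norm_num) (by omega)
    have p2 : ρ₀ ^ (j + 1) / (((j : ℝ) + 1) * mm ω j) * ((r ^ (j + 1))⁻¹ * JJ ω j r)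
        ≤ C1 * LL ω r * (1 / 2) ^ j := by
      have h5 : (r ^ (j + 1))⁻¹ ≤ 1 := inv_le_one_of_one_le₀ (one_le_pow₀ hr1)
      have h6 : JJ ω j r ≤ LL ω r := hJ1.trans (by
        calc (r ^ (j + 1))⁻¹ * LL ω r ≤ 1 * LL ω r := mul_le_mul_of_nonneg_right h5 hL.le
          _ = _ := one_mul _)
      have h7 : (r ^ (j + 1))⁻¹ * JJ ω j r ≤ LL ω r := by
        calc (r ^ (j + 1))⁻¹ * JJ ω j r ≤ 1 * LL ω r :=
              mul_le_mul h5 h6 hJ0 zero_le_one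
          _ = _ := one_mul _
      have h8 : ρ₀ ^ (j + 1) / (((j : ℝ) + 1) * mm ω j) ≤ ρ₀ ^ (j + 1) / mm ω j := by
        apply div_le_div_of_nonneg_left (by positivity) hm
        nlinarith [Nat.cast_nonneg (α := ℝ) j]
      have h9 := geom W ρ₀ hρ₀ j
      calc ρ₀ ^ (j + 1) / (((j : ℝ) + 1) * mm ω j) * ((r ^ (j + 1))⁻¹ * JJ ω j r)
          ≤ (C1 * (1 / 2) ^ j) * LL ω r :=
            mul_le_mul (h8.trans h9) h7 (by positivity) (by positivity)
        _ = _ := by ring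
    calc _ = ρ₀ ^ (j + 1) / (((j : ℝ) + 1) * mm ω j) * ((r ^ (j + 1))⁻¹ * TT ω j r)
          + ρ₀ ^ (j + 1) / (((j : ℝ) + 1) * mm ω j) * ((r ^ (j + 1))⁻¹ * JJ ω j r) := by ring
      _ ≤ C0 * LL ω r * (1 / 2) ^ j + C1 * LL ω r * (1 / 2) ^ j := add_le_add p1 p2
      _ = _ := by ring
  have hgeo : HasSum (fun j : ℕ => ((C0 + C1) * LL ω r) * (1 / 2 : ℝ) ^ j)
      (((C0 + C1) * LL ω r) * (1 - 1 / 2)⁻¹) :=
    (hasSum_geometric_of_lt_one (by norm_num) (by norm_num)).mul_left _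
  have hcs : Summable c := Summable.of_norm_bounded hgeo.summable hcb
  have hcn : ‖∑' j, c j‖ ≤ 2 * (C0 + C1) * LL ω r := by
    have := tsum_of_norm_bounded hgeo hcb
    calc _ ≤ _ := this
      _ = _ := by ring
  -- the logarithm
  have hwa : ‖w / a‖ < 1 := by
    rw [norm_div, div_lt_one (by rw [← hr]; exact hr0)]
    have : ‖w‖ < r := by linarith
    exact this
  have hlog := Complex.hasSum_taylorSeries_neg_log hwa
  have hlog1 : HasSum (fun j : ℕ => (w / a) ^ (j + 1) / ((j : ℂ) + 1)) (-Complex.log (1 - w / a)) := by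
    have := (hasSum_nat_add_iff' 1).2 hlog
    simpa using this
  have hterm : ∀ j, term ω a w j = (w / a) ^ (j + 1) / ((j : ℂ) + 1) - c j := by
    intro j
    have hm := m_pos W j
    have hmc : ((mm ω j : ℝ) : ℂ) ≠ 0 := by exact_mod_cast hm.ne'
    have hj : ((j : ℂ) + 1) ≠ 0 := Nat.cast_add_one_ne_zero j
    rw [term_eq, ← hr, II_eq W j r hr0.le]
    rw [hc]
    simp only
    rw [div_pow]
    push_cast
    have hinv : a⁻¹ ^ (j + 1) = (a ^ (j + 1))⁻¹ := inv_pow _ _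
    rw [hinv]
    field_simp
    ring
  have hsum : ∑' j, term ω a w j = -Complex.log (1 - w / a) - ∑' j, c j := by
    simp_rw [hterm]
    exact (hlog1.sub hcs.hasSum).tsum_eq
  have hne : (1 - w / a) ≠ 0 := by
    intro h0
    have : w / a = 1 := (sub_eq_zero.mp h0).symm
    rw [this, norm_one] at hwa
    exact lt_irrefl _ hwa
  refine ⟨((LL ω r : ℝ) : ℂ) + ∑' j, c j, ?_, ?_⟩
  · rw [fac_eq, ← hr, hsum]
    have e : -(((LL ω r : ℝ) : ℂ) - (-Complex.log (1 - w / a) - ∑' j, c j))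
        = -(((LL ω r : ℝ) : ℂ) + ∑' j, c j) - Complex.log (1 - w / a) := by ring
    rw [e, Complex.exp_sub, Complex.exp_log hne, mul_div_assoc', mul_comm, mul_div_assoc,
      div_self hne, mul_one]
  · refine (norm_add_le _ _).trans ?_
    rw [Complex.norm_real, Real.norm_of_nonneg hL.le]
    linarith

/-- the factors are bounded on bounded sets. -/
theorem fac_bdd (a : ℂ) (ha : 0 < ‖a‖) (ρ₀ : ℝ) (hρ₀ : 0 < ρ₀) :
    ∃ B : ℝ, ∀ w : ℂ, ‖w‖ ≤ ρ₀ → ‖fac ω a w‖ ≤ B := by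
  set r := ‖a‖ with hr
  have hL := L_pos W r ha
  set b := max ρ₀ (ρ₀ * (r ^ 2)⁻¹) with hb
  have hb0 : 0 < b := lt_of_lt_of_le hρ₀ (le_max_left _ _)
  have hwb := W.hpos (2 * b + 1) (by positivity)
  have hm0 := m_pos W 0
  set D := (mm ω 0 / r + LL ω r) * (b / ω (2 * b + 1)) with hD
  have hD0 : 0 < D := by positivity
  have hgeo : HasSum (fun j : ℕ => D * (1 / 2 : ℝ) ^ j) (D * (1 - 1 / 2)⁻¹) :=
    (hasSum_geometric_of_lt_one (by norm_num) (by norm_num)).mul_left _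
  refine ⟨(1 + ρ₀ / r) * Real.exp (LL ω r + D * (1 - 1 / 2)⁻¹), fun w hw => ?_⟩
  have htb : ∀ j, ‖term ω a w j‖ ≤ D * (1 / 2 : ℝ) ^ j := by
    intro j
    have hm := m_pos W j
    obtain ⟨hJ0, hJ1⟩ := JJ_bounds W j r ha
    have hI0 := II_nonneg W j r
    have hI1 := II_le W j r ha.le
    have hj1 : ‖((j : ℂ) + 1)‖ = (j : ℝ) + 1 := by
      have : ((j : ℂ) + 1) = (((j : ℝ) + 1 : ℝ) : ℂ) := by push_cast; rfl
      rw [this, Complex.norm_real, Real.norm_of_nonneg (by positivity)]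
    rw [term_eq, norm_div, norm_mul, norm_pow, norm_mul, hj1, Complex.norm_real,
        Real.norm_of_nonneg hm.le]
    have h1 : ‖a⁻¹ ^ (j + 1) * ((II ω j ‖a‖ : ℝ) : ℂ) - ((starRingEnd ℂ) a)⁻¹ ^ (j + 1) *
      ((JJ ω j ‖a‖ : ℝ) : ℂ)‖ ≤ mm ω 0 / r + LL ω r * ((r ^ 2)⁻¹) ^ (j + 1) := by
      refine (norm_sub_le _ _).trans ?_
      rw [norm_mul, norm_mul, norm_pow, norm_pow, norm_inv, norm_inv, Complex.norm_real,
          Complex.norm_real, ← hr, Real.norm_of_nonneg hI0, Real.norm_of_nonneg hJ0,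
          RCLike.norm_conj, ← hr]
      apply add_le_add
      · calc r⁻¹ ^ (j + 1) * II ω j r ≤ r⁻¹ ^ (j + 1) * (r ^ j * mm ω 0) :=
              mul_le_mul_of_nonneg_left hI1 (by positivity)
          _ = mm ω 0 / r := by
            rw [pow_succ, inv_pow]; field_simp
      · calc r⁻¹ ^ (j + 1) * JJ ω j r ≤ r⁻¹ ^ (j + 1) * ((r ^ (j + 1))⁻¹ * LL ω r) :=
              mul_le_mul_of_nonneg_left hJ1 (by positivity)
          _ = LL ω r * ((r ^ 2)⁻¹) ^ (j + 1) := by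
            rw [inv_pow, inv_pow, ← pow_mul, mul_comm 2, pow_mul]
            field_simp
    have h2 : ‖w‖ ^ (j + 1) ≤ ρ₀ ^ (j + 1) := pow_le_pow_left₀ (norm_nonneg _) hw _
    have h3 : mm ω j ≤ ((j : ℝ) + 1) * mm ω j := by nlinarith [Nat.cast_nonneg (α := ℝ) j]
    have h4 : ρ₀ ^ (j + 1) ≤ b ^ (j + 1) := pow_le_pow_left₀ hρ₀.le (le_max_left _ _) _
    have h5 : ((r ^ 2)⁻¹) ^ (j + 1) * ρ₀ ^ (j + 1) ≤ b ^ (j + 1) := by
      rw [← mul_pow, mul_comm]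
      exact pow_le_pow_left₀ (by positivity) (le_max_right _ _) _
    calc ‖a⁻¹ ^ (j + 1) * ((II ω j ‖a‖ : ℝ) : ℂ) - ((starRingEnd ℂ) a)⁻¹ ^ (j + 1) *
      ((JJ ω j ‖a‖ : ℝ) : ℂ)‖ * ‖w‖ ^ (j + 1) / (((j : ℝ) + 1) * mm ω j)
        ≤ ((mm ω 0 / r + LL ω r * ((r ^ 2)⁻¹) ^ (j + 1)) * ρ₀ ^ (j + 1)) / mm ω j := by
          gcongr
      _ = (mm ω 0 / r * ρ₀ ^ (j + 1) + LL ω r * (((r ^ 2)⁻¹) ^ (j + 1) * ρ₀ ^ (j + 1))) / mm ω j := by
          ring
      _ ≤ (mm ω 0 / r * b ^ (j + 1) + LL ω r * b ^ (j + 1)) / mm ω j := by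
          gcongr
      _ = (mm ω 0 / r + LL ω r) * (b ^ (j + 1) / mm ω j) := by ring
      _ ≤ (mm ω 0 / r + LL ω r) * (b / ω (2 * b + 1) * (1 / 2) ^ j) :=
          mul_le_mul_of_nonneg_left (geom W b hb0 j) (by positivity)
      _ = D * (1 / 2 : ℝ) ^ j := by rw [hD]; ring
  have hS := tsum_of_norm_bounded hgeo htb
  rw [fac_eq, norm_mul]
  apply mul_le_mul
  · refine (norm_sub_le _ _).trans ?_
    rw [norm_one, norm_div, ← hr]
    gcongr
  · refine (Complex.norm_exp_le_exp_norm _).trans ?_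
    rw [Real.exp_le_exp, norm_neg]
    refine (norm_sub_le _ _).trans ?_
    rw [Complex.norm_real, Real.norm_of_nonneg hL.le]
    linarith
  · positivity
  · positivity

end Pool.Agent.Canon
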