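import Pool.Agent.H0.Canon.Cplx

set_option autoImplicit false
open MeasureTheory Filter Topology Set

namespace Pool.Agent.Canon

theorem conv {ω : ℝ → ℝ} {R : ℝ} (W : Wt ω R) (a : ℕ → ℂ) (ha0 : ∀ k, 0 < ‖a k‖)
    (hmono : ∀ k, ‖a k‖ ≤ ‖a (k + 1)‖) (hsum : Summable (fun k : ℕ => LL ω ‖a k‖))
    (K : Set ℂ) (hK : IsCompact K) (haK : ∀ k, a k ∉ K) :
    ∃ g : ℂ → ℂ, TendstoUniformlyOn (fun (n : ℕ) (w : ℂ) => ∏ k ∈ Finset.range n, fac ω (a k) w)
      g Filter.atTop K ∧ ∀ w ∈ K, g w ≠ 0 := by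
  classical
  obtain ⟨ρ', hρ'⟩ := hK.isBounded.exists_norm_le
  set ρ₀ := max ρ' 1 with hρ₀
  have hρ₀0 : 0 < ρ₀ := lt_of_lt_of_le one_pos (le_max_right _ _)
  have hKb : ∀ w ∈ K, ‖w‖ ≤ ρ₀ := fun w hw => (hρ' w hw).trans (le_max_left _ _)
  obtain ⟨r₁, C, hr₁, hC, hnear⟩ := near_inf W ρ₀ hρ₀0
  have hmono' : Monotone (fun k => ‖a k‖) := monotone_nat_of_le_succ hmono
  -- eventually large
  obtain ⟨k₀, hk₀⟩ : ∃ k₀, r₁ < ‖a k₀‖ := by
    by_contra hcon
    push Not at hcon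
    have h1 := hsum.tendsto_atTop_zero
    have h2 : ∀ k, LL ω r₁ ≤ LL ω ‖a k‖ := fun k => L_anti W _ _ (ha0 k) (hcon k)
    have h3 : LL ω r₁ ≤ 0 := ge_of_tendsto h1 (Eventually.of_forall h2)
    exact absurd (L_pos W r₁ hr₁) (not_lt.mpr h3)
  have hlarge : ∀ i, r₁ < ‖a (k₀ + i)‖ := fun i => hk₀.trans_le (hmono' (Nat.le_add_right _ _))
  have hE : ∀ (i : ℕ) (w : ℂ), ∃ E : ℂ, w ∈ K → (fac ω (a (k₀ + i)) w = Complex.exp (-E) ∧
      ‖E‖ ≤ C * LL ω ‖a (k₀ + i)‖) := by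
    intro i w
    by_cases hw : w ∈ K
    · obtain ⟨E, h1, h2⟩ := hnear _ (hlarge i) w (hKb w hw)
      exact ⟨E, fun _ => ⟨h1, h2⟩⟩
    · exact ⟨0, fun h => absurd h hw⟩
  choose E hE using hE
  have hsum2 : Summable (fun i : ℕ => C * LL ω ‖a (k₀ + i)‖) := by
    have h1 := (summable_nat_add_iff k₀).mpr hsum
    refine (h1.mul_left C).congr fun i => ?_
    rw [add_comm]
  have hunif : TendstoUniformlyOn (fun N => fun w => ∑ i ∈ Finset.range N, E i w)
      (fun w => ∑' i, E i w) atTop K :=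
    tendstoUniformlyOn_tsum_nat hsum2 (fun i w hw => (hE i w hw).2)
  set S : ℂ → ℂ := fun w => ∑' i, E i w with hS
  have hSb : ∀ w ∈ K, ‖S w‖ ≤ ∑' i : ℕ, C * LL ω ‖a (k₀ + i)‖ := by
    intro w hw
    exact tsum_of_norm_bounded hsum2.hasSum (fun i => (hE i w hw).2)
  set MS := ∑' i : ℕ, C * LL ω ‖a (k₀ + i)‖ with hMS
  -- bounded head
  have hB := fun k => fac_bdd W (a k) (ha0 k) ρ₀ hρ₀0
  choose B hB using hB
  set P : ℂ → ℂ := fun w => ∏ k ∈ Finset.range k₀, fac ω (a k) w with hP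
  have hPb : ∀ w ∈ K, ‖P w‖ ≤ ∏ k ∈ Finset.range k₀, (B k) := by
    intro w hw
    rw [hP]
    simp only
    rw [norm_prod]
    exact Finset.prod_le_prod (fun _ _ => norm_nonneg _) (fun k _ => hB k w (hKb w hw))
  set MP := ∏ k ∈ Finset.range k₀, (B k) with hMP
  have hprod : ∀ n : ℕ, ∀ w ∈ K, ∏ k ∈ Finset.range (k₀ + n), fac ω (a k) w
      = P w * Complex.exp (-(∑ i ∈ Finset.range n, E i w)) := by
    intro n w hw
    rw [Finset.prod_range_add]
    congr 1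
    rw [← Finset.sum_neg_distrib, Complex.exp_sum]
    exact Finset.prod_congr rfl fun i _ => (hE i w hw).1
  refine ⟨fun w => P w * Complex.exp (-(S w)), ?_, ?_⟩
  · rw [Metric.tendstoUniformlyOn_iff] at hunif ⊢
    intro ε hε
    have hMP0 : 0 ≤ |MP| := abs_nonneg _
    set D := (|MP| + 1) * Real.exp MS * 2 with hD
    have hD0 : 0 < D := by positivity
    have hev := hunif (min 1 (ε / D)) (by positivity)
    rw [eventually_atTop] at hev ⊢
    obtain ⟨N, hN⟩ := hev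
    refine ⟨k₀ + N, fun n hn w hw => ?_⟩
    obtain ⟨m, rfl⟩ : ∃ m, n = k₀ + m := ⟨n - k₀, by omega⟩
    have h1 := hN m (by omega) w hw
    rw [hprod m w hw]
    rw [dist_eq_norm] at h1 ⊢
    have h1a : ‖S w - ∑ i ∈ Finset.range m, E i w‖ < 1 := h1.trans_le (min_le_left _ _)
    have h1b : ‖S w - ∑ i ∈ Finset.range m, E i w‖ < ε / D := h1.trans_le (min_le_right _ _)
    have e : P w * Complex.exp (-(S w)) - P w * Complex.exp (-(∑ i ∈ Finset.range m, E i w))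
        = -(P w * Complex.exp (-(S w)) * (Complex.exp (S w - ∑ i ∈ Finset.range m, E i w) - 1)) := by
      have : Complex.exp (-(∑ i ∈ Finset.range m, E i w))
          = Complex.exp (-(S w)) * Complex.exp (S w - ∑ i ∈ Finset.range m, E i w) := by
        rw [← Complex.exp_add]; congr 1; ring
      rw [this]; ring
    rw [e, norm_neg, norm_mul, norm_mul]
    have h2 : ‖P w‖ ≤ |MP| + 1 := (hPb w hw).trans ((le_abs_self _).trans (by linarith))
    have h3 : ‖Complex.exp (-(S w))‖ ≤ Real.exp MS := by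
      refine (Complex.norm_exp_le_exp_norm _).trans ?_
      rw [norm_neg, Real.exp_le_exp]
      exact hSb w hw
    have h4 := Complex.norm_exp_sub_one_le h1a.le
    have h5 : ‖P w‖ * ‖Complex.exp (-(S w))‖ ≤ (|MP| + 1) * Real.exp MS :=
      mul_le_mul h2 h3 (norm_nonneg _) (by positivity)
    calc ‖P w‖ * ‖Complex.exp (-(S w))‖ * ‖Complex.exp (S w - ∑ i ∈ Finset.range m, E i w) - 1‖
        ≤ (|MP| + 1) * Real.exp MS * (2 * ‖S w - ∑ i ∈ Finset.range m, E i w‖) :=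
          mul_le_mul h5 h4 (norm_nonneg _) (by positivity)
      _ = D * ‖S w - ∑ i ∈ Finset.range m, E i w‖ := by rw [hD]; ring
      _ < D * (ε / D) := mul_lt_mul_of_pos_left h1b hD0
      _ = ε := by field_simp
  · intro w hw
    apply mul_ne_zero _ (Complex.exp_ne_zero _)
    rw [hP]
    simp only
    rw [Finset.prod_ne_zero_iff]
    intro k _
    apply fac_ne
    · rw [← norm_pos_iff]; exact ha0 k
    · rintro rfl
      exact haK k hw

theorem main :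
    ∀ ω : ℝ → ℝ, ContinuousOn ω (Set.Ici 0) → (∀ x : ℝ, 0 ≤ x → 0 < ω x) →
      AntitoneOn ω (Set.Ici 0) →
      (∀ j : ℕ, MeasureTheory.IntegrableOn (fun x : ℝ => ω x * x ^ j) (Set.Ioi 0)) →
      (∃ R : ℝ, 0 < R ∧ (∀ x : ℝ, R < x → DifferentiableAt ℝ ω x) ∧
        AntitoneOn (fun x : ℝ => x * deriv ω x / ω x) (Set.Ioi R) ∧
        Filter.Tendsto (fun x : ℝ => x * deriv ω x / ω x) Filter.atTop Filter.atBot) →
      ∀ a : ℕ → ℂ, (∀ k, 0 < ‖a k‖) → (∀ k, ‖a k‖ ≤ ‖a (k + 1)‖) →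
        Summable (fun k : ℕ => ∫ x in Set.Ioi ‖a k‖, ω x / x) →
        ∀ K : Set ℂ, IsCompact K → (∀ k, a k ∉ K) →
          ∃ g : ℂ → ℂ,
            TendstoUniformlyOn
              (fun (n : ℕ) (w : ℂ) => ∏ k ∈ Finset.range n,
                (1 - w / a k) * Complex.exp (-(
                  (((∫ x in Set.Ioi ‖a k‖, ω x / x : ℝ)) : ℂ) -
                  ∑' j : ℕ,
                    ((a k)⁻¹ ^ (j + 1) *
                        (((∫ x in Set.Ioc 0 ‖a k‖, ω x * x ^ j : ℝ)) : ℂ) -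
                      ((starRingEnd ℂ) (a k))⁻¹ ^ (j + 1) *
                        (((∫ x in Set.Ioi ‖a k‖, ω x * (x ^ (j + 2))⁻¹ : ℝ)) : ℂ)) *
                    w ^ (j + 1) /
                    (((j : ℂ) + 1) * (((∫ x in Set.Ioi 0, ω x * x ^ j : ℝ)) : ℂ)))))
              g Filter.atTop K ∧
            ∀ w ∈ K, g w ≠ 0 := by
  intro ω hc hpos hanti hint ⟨R, hR, hd, hs, _⟩ a ha0 hmono hsum K hK haK
  exact conv ⟨hc, hpos, hanti, hint, hR, hd, hs⟩ a ha0 hmono hsum K hK haK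

end Pool.Agent.Canon
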