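import Mathlib

set_option autoImplicit false
set_option linter.unusedSectionVars false
open MeasureTheory Filter Topology Set

namespace Pool.Agent.Canon

/-- hypotheses on the weight -/
structure Wt (ω : ℝ → ℝ) (R : ℝ) : Prop where
  hc : ContinuousOn ω (Ici 0)
  hpos : ∀ x : ℝ, 0 ≤ x → 0 < ω x
  hanti : AntitoneOn ω (Ici 0)
  hint : ∀ j : ℕ, IntegrableOn (fun x : ℝ => ω x * x ^ j) (Ioi 0)
  hR : 0 < R
  hd : ∀ x : ℝ, R < x → DifferentiableAt ℝ ω x
  hs : AntitoneOn (fun x : ℝ => x * deriv ω x / ω x) (Ioi R)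

noncomputable def mm (ω : ℝ → ℝ) (j : ℕ) : ℝ := ∫ x in Ioi 0, ω x * x ^ j
noncomputable def TT (ω : ℝ → ℝ) (j : ℕ) (r : ℝ) : ℝ := ∫ x in Ioi r, ω x * x ^ j
noncomputable def LL (ω : ℝ → ℝ) (r : ℝ) : ℝ := ∫ x in Ioi r, ω x / x

variable {ω : ℝ → ℝ} {R : ℝ} (W : Wt ω R)
include W

lemma int_T (j : ℕ) (r : ℝ) (hr : 0 ≤ r) : IntegrableOn (fun x : ℝ => ω x * x ^ j) (Ioi r) :=
  (W.hint j).mono_set (Ioi_subset_Ioi hr)

lemma int_L (r : ℝ) (hr : 0 < r) : IntegrableOn (fun x : ℝ => ω x / x) (Ioi r) := by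
  have h1 : IntegrableOn (fun x : ℝ => (ω x * x ^ 0) * r⁻¹) (Ioi r) :=
    (int_T W 0 r hr.le).mul_const _
  refine Integrable.mono' h1 ?_ ?_
  · apply ContinuousOn.aestronglyMeasurable _ measurableSet_Ioi
    apply ContinuousOn.div (W.hc.mono (fun x hx => (hr.trans hx).le)) continuousOn_id
    intro x hx
    exact (hr.trans hx).ne'
  · filter_upwards [ae_restrict_mem measurableSet_Ioi] with x hx
    have hx' : r < x := hx
    have hx0 : 0 < x := hr.trans hx'
    have hw := W.hpos x hx0.le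
    rw [Real.norm_of_nonneg (by positivity), pow_zero, mul_one, div_eq_mul_inv]
    apply mul_le_mul_of_nonneg_left _ hw.le
    exact inv_anti₀ hr hx'.le

lemma T_nonneg (j : ℕ) (r : ℝ) (hr : 0 ≤ r) : 0 ≤ TT ω j r :=
  setIntegral_nonneg measurableSet_Ioi fun x hx => by
    have hx0 : (0 : ℝ) ≤ x := hr.trans (le_of_lt hx)
    have := W.hpos x hx0
    positivity

lemma T_le_m (j : ℕ) (r : ℝ) (hr : 0 ≤ r) : TT ω j r ≤ mm ω j := by
  apply setIntegral_mono_set (W.hint j)
  · filter_upwards [ae_restrict_mem measurableSet_Ioi] with x hx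
    have hx0 : (0 : ℝ) ≤ x := le_of_lt hx
    have := W.hpos x hx0
    show 0 ≤ ω x * x ^ j
    positivity
  · exact (Ioi_subset_Ioi hr).eventuallyLE

/-- pieces of the moment integral -/
lemma piece_le (j : ℕ) (a b : ℝ) (ha : 0 ≤ a) :
    ∫ x in Ioc a b, ω x * x ^ j ≤ mm ω j := by
  apply setIntegral_mono_set (W.hint j)
  · filter_upwards [ae_restrict_mem measurableSet_Ioi] with x hx
    have hx0 : (0 : ℝ) ≤ x := le_of_lt hx
    have := W.hpos x hx0
    show 0 ≤ ω x * x ^ j
    positivity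
  · exact (show Ioc a b ⊆ Ioi 0 from fun x hx => ha.trans_lt hx.1).eventuallyLE

lemma m_lower (j : ℕ) (B : ℝ) (hB : 0 ≤ B) : ω (B + 1) * B ^ j ≤ mm ω j := by
  refine le_trans ?_ (piece_le W j B (B + 1) hB)
  have hint : IntegrableOn (fun x : ℝ => ω x * x ^ j) (Ioc B (B + 1)) :=
    (W.hint j).mono_set (fun x hx => hB.trans_lt hx.1)
  have h1 : ∫ x in Ioc B (B + 1), ω (B + 1) * B ^ j ≤ ∫ x in Ioc B (B + 1), ω x * x ^ j := by
    apply setIntegral_mono_on _ hint measurableSet_Ioc
    · intro x hx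
      have hx0 : 0 ≤ x := hB.trans hx.1.le
      apply mul_le_mul _ (pow_le_pow_left₀ hB hx.1.le j) (by positivity) (W.hpos x hx0).le
      exact W.hanti hx0 (by show (0 : ℝ) ≤ B + 1; linarith) hx.2
    · exact integrable_const _
  rw [setIntegral_const] at h1
  have h5 : (volume : Measure ℝ).real (Ioc B (B + 1)) = 1 := by simp [Measure.real]
  rwa [h5, one_smul] at h1

lemma m_pos (j : ℕ) : 0 < mm ω j := by
  have h1 := m_lower W j 1 zero_le_one
  have h2 := W.hpos (1 + 1) (by norm_num)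
  rw [one_pow, mul_one] at h1
  linarith

lemma L_pos (r : ℝ) (hr : 0 < r) : 0 < LL ω r := by
  have hint : IntegrableOn (fun x : ℝ => ω x / x) (Ioc r (r + 1)) :=
    (int_L W r hr).mono_set (fun x hx => hx.1)
  have h1 : ∫ x in Ioc r (r + 1), ω (r + 1) / (r + 1) ≤ ∫ x in Ioc r (r + 1), ω x / x := by
    apply setIntegral_mono_on _ hint measurableSet_Ioc
    · intro x hx
      have hx0 : 0 < x := hr.trans hx.1
      apply div_le_div₀ (W.hpos x hx0.le).le _ hx0 hx.2
      exact W.hanti hx0.le (by show (0 : ℝ) ≤ r + 1; linarith) hx.2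
    · simp
  have h2 : ∫ x in Ioc r (r + 1), ω x / x ≤ LL ω r := by
    apply setIntegral_mono_set (int_L W r hr)
    · filter_upwards [ae_restrict_mem measurableSet_Ioi] with x hx
      have hx0 : (0 : ℝ) ≤ x := hr.le.trans (le_of_lt hx)
      have := W.hpos x hx0
      show 0 ≤ ω x / x
      positivity
    · exact (show Ioc r (r + 1) ⊆ Ioi r from fun x hx => hx.1).eventuallyLE
  rw [setIntegral_const] at h1
  have h3 := W.hpos (r + 1) (by linarith)
  have h4 : 0 < ω (r + 1) / (r + 1) := by positivity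
  have h5 : (volume : Measure ℝ).real (Ioc r (r + 1)) = 1 := by simp [Measure.real]
  rw [h5, one_smul] at h1
  linarith

lemma L_anti (r r' : ℝ) (hr : 0 < r) (h : r ≤ r') : LL ω r' ≤ LL ω r := by
  apply setIntegral_mono_set (int_L W r hr)
  · filter_upwards [ae_restrict_mem measurableSet_Ioi] with x hx
    have hx0 : (0 : ℝ) ≤ x := hr.le.trans (le_of_lt hx)
    have := W.hpos x hx0
    show 0 ≤ ω x / x
    positivity
  · exact (Ioi_subset_Ioi h).eventuallyLE

/-- `ω → 0` -/
lemma w_tendsto : Tendsto ω atTop (𝓝 0) := by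
  have hb : ∀ x : ℝ, 0 < x → ω x ≤ mm ω 0 * x⁻¹ := by
    intro x hx
    rw [← div_eq_mul_inv, le_div_iff₀ hx]
    refine le_trans ?_ (piece_le W 0 0 x le_rfl)
    have hint : IntegrableOn (fun x : ℝ => ω x * x ^ 0) (Ioc 0 x) :=
      (W.hint 0).mono_set (fun x hx => hx.1)
    have h1 : ∫ y in Ioc 0 x, ω x ≤ ∫ y in Ioc 0 x, ω y * y ^ 0 := by
      apply setIntegral_mono_on _ hint measurableSet_Ioc
      · intro y hy
        rw [pow_zero, mul_one]
        exact W.hanti hy.1.le hx.le hy.2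
      · simp
    rw [setIntegral_const] at h1
    have h5 : (volume : Measure ℝ).real (Ioc 0 x) = x := by simp [Measure.real, hx.le]
    rw [h5, smul_eq_mul] at h1
    linarith
  have hl : Tendsto (fun x : ℝ => mm ω 0 * x⁻¹) atTop (𝓝 0) := by
    have := tendsto_inv_atTop_zero.const_mul (mm ω 0)
    rwa [mul_zero] at this
  refine squeeze_zero' ?_ ?_ hl
  · filter_upwards [eventually_ge_atTop 0] with x hx
    exact (W.hpos x hx).le
  · filter_upwards [eventually_gt_atTop 0] with x hx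
    exact hb x hx

lemma T_sub (j : ℕ) (r t : ℝ) (hr : 0 ≤ r) (h : r ≤ t) :
    TT ω j t = TT ω j r - ∫ x in r..t, ω x * x ^ j := by
  unfold TT
  rw [intervalIntegral.integral_of_le h]
  have hU : Ioi r = Ioc r t ∪ Ioi t := (Ioc_union_Ioi_eq_Ioi h).symm
  have hdis : Disjoint (Ioc r t) (Ioi t) := by
    rw [Set.disjoint_left]; intro x hx hx2; exact absurd hx.2 (not_le.mpr hx2)
  have hi := int_T W j r hr
  rw [hU] at hi ⊢
  rw [setIntegral_union hdis measurableSet_Ioi (hi.mono_set subset_union_left)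
    (hi.mono_set subset_union_right)]
  ring

lemma L_sub (r t : ℝ) (hr : 0 < r) (h : r ≤ t) :
    LL ω t = LL ω r - ∫ x in r..t, ω x / x := by
  unfold LL
  rw [intervalIntegral.integral_of_le h]
  have hU : Ioi r = Ioc r t ∪ Ioi t := (Ioc_union_Ioi_eq_Ioi h).symm
  have hdis : Disjoint (Ioc r t) (Ioi t) := by
    rw [Set.disjoint_left]; intro x hx hx2; exact absurd hx.2 (not_le.mpr hx2)
  have hi := int_L W r hr
  rw [hU] at hi ⊢
  rw [setIntegral_union hdis measurableSet_Ioi (hi.mono_set subset_union_left)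
    (hi.mono_set subset_union_right)]
  ring

lemma T_tendsto (j : ℕ) : Tendsto (TT ω j) atTop (𝓝 0) := by
  have h1 := intervalIntegral_tendsto_integral_Ioi (f := fun x : ℝ => ω x * x ^ j) 0
    (W.hint j) tendsto_id
  have h2 := (tendsto_const_nhds (x := TT ω j 0)).sub h1
  have e : TT ω j 0 - ∫ x in Ioi 0, ω x * x ^ j = 0 := by unfold TT; ring
  rw [e] at h2
  refine h2.congr' ?_
  filter_upwards [eventually_ge_atTop 0] with t ht
  exact (T_sub W j 0 t le_rfl ht).symm

lemma L_tendsto : Tendsto (LL ω) atTop (𝓝 0) := by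
  have h1 := intervalIntegral_tendsto_integral_Ioi (f := fun x : ℝ => ω x / x) 1
    (int_L W 1 one_pos) tendsto_id
  have h2 := (tendsto_const_nhds (x := LL ω 1)).sub h1
  have e : LL ω 1 - ∫ x in Ioi 1, ω x / x = 0 := by unfold LL; ring
  rw [e] at h2
  refine h2.congr' ?_
  filter_upwards [eventually_ge_atTop 1] with t ht
  exact (L_sub W 1 t one_pos ht).symm

lemma cont_w (t : ℝ) (ht : 0 < t) : ContinuousAt ω t := W.hc.continuousAt (Ici_mem_nhds ht)

lemma T_deriv (j : ℕ) (t : ℝ) (ht : 0 < t) : HasDerivAt (TT ω j) (-(ω t * t ^ j)) t := by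
  have h1 : HasDerivAt (fun u => ∫ x in (t / 2)..u, ω x * x ^ j) (ω t * t ^ j) t := by
    apply intervalIntegral.integral_hasDerivAt_right
    · apply ContinuousOn.intervalIntegrable
      apply ContinuousOn.mul (W.hc.mono ?_) (by fun_prop)
      rw [uIcc_of_le (by linarith)]
      intro x hx
      exact (show (0 : ℝ) ≤ x by linarith [hx.1])
    · have hcon : ContinuousOn (fun x : ℝ => ω x * x ^ j) (Ioi 0) :=
        ContinuousOn.mul (W.hc.mono (fun x hx => mem_Ici.mpr (le_of_lt (mem_Ioi.mp hx)))) (by fun_prop)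
      exact hcon.stronglyMeasurableAtFilter isOpen_Ioi _ ht
    · exact (cont_w W t ht).mul (by fun_prop)
  have h2 : HasDerivAt (fun u => TT ω j (t / 2) - ∫ x in (t / 2)..u, ω x * x ^ j)
      (-(ω t * t ^ j)) t := by
    have := (hasDerivAt_const t (TT ω j (t / 2))).fun_sub h1
    rwa [zero_sub] at this
  refine h2.congr_of_eventuallyEq ?_
  filter_upwards [lt_mem_nhds (show t / 2 < t by linarith)] with u hu
  exact T_sub W j (t / 2) u (by positivity) hu.le

lemma L_deriv (t : ℝ) (ht : 0 < t) : HasDerivAt (LL ω) (-(ω t / t)) t := by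
  have h1 : HasDerivAt (fun u => ∫ x in (t / 2)..u, ω x / x) (ω t / t) t := by
    apply intervalIntegral.integral_hasDerivAt_right
    · apply ContinuousOn.intervalIntegrable
      apply ContinuousOn.div (W.hc.mono ?_) (by fun_prop)
      · rw [uIcc_of_le (by linarith)]
        intro x hx
        exact (show x ≠ 0 by linarith [hx.1])
      · rw [uIcc_of_le (by linarith)]
        intro x hx
        exact (show (0 : ℝ) ≤ x by linarith [hx.1])
    · have hcon : ContinuousOn (fun x : ℝ => ω x / x) (Ioi 0) :=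
        ContinuousOn.div (W.hc.mono (fun x hx => mem_Ici.mpr (le_of_lt (mem_Ioi.mp hx)))) (by fun_prop)
          (fun x hx => (show (0 : ℝ) < x from hx).ne')
      exact hcon.stronglyMeasurableAtFilter isOpen_Ioi _ ht
    · exact (cont_w W t ht).div continuousAt_id ht.ne'
  have h2 : HasDerivAt (fun u => LL ω (t / 2) - ∫ x in (t / 2)..u, ω x / x)
      (-(ω t / t)) t := by
    have := (hasDerivAt_const t (LL ω (t / 2))).fun_sub h1
    rwa [zero_sub] at this
  refine h2.congr_of_eventuallyEq ?_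
  filter_upwards [lt_mem_nhds (show t / 2 < t by linarith)] with u hu
  exact L_sub W (t / 2) u (by positivity) hu.le

lemma tkL_le (j : ℕ) (t : ℝ) (ht : 0 < t) : t ^ (j + 1) * LL ω t ≤ TT ω j t := by
  unfold LL TT
  rw [← integral_const_mul]
  apply setIntegral_mono_on ((int_L W t ht).const_mul _) (int_T W j t ht.le) measurableSet_Ioi
  intro x hx
  have hx' : t < x := hx
  have hx0 : 0 < x := ht.trans hx'
  have hw := W.hpos x hx0.le
  rw [mul_div_assoc', div_le_iff₀ hx0]
  have h1 : t ^ (j + 1) ≤ x ^ (j + 1) := pow_le_pow_left₀ ht.le hx'.le _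
  calc t ^ (j + 1) * ω x ≤ x ^ (j + 1) * ω x := mul_le_mul_of_nonneg_right h1 hw.le
    _ = _ := by ring

end Pool.Agent.Canon
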