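import Pool.Agent.H0.Canon.Star

set_option autoImplicit false
set_option linter.unusedSectionVars false
open MeasureTheory Filter Topology Set

namespace Pool.Agent.Canon

variable {ω : ℝ → ℝ} {R : ℝ} (W : Wt ω R)
include W

lemma lg_deriv (p t : ℝ) (ht : R < t) :
    HasDerivAt (fun t => Real.log (ω t) + p * Real.log t) ((t * deriv ω t / ω t + p) / t) t := by
  have ht0 : 0 < t := W.hR.trans ht
  have hw := W.hpos t ht0.le
  have h1 := (W.hd t ht).hasDerivAt.log hw.ne'
  have h2 := (Real.hasDerivAt_log ht0.ne').const_mul p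
  have h3 := h1.fun_add h2
  refine h3.congr_deriv ?_
  field_simp

lemma lg_cont (p a b : ℝ) (ha : R < a) :
    ContinuousOn (fun t => Real.log (ω t) + p * Real.log t) (Icc a b) := fun t ht =>
  (lg_deriv W p t (ha.trans_le ht.1)).continuousAt.continuousWithinAt

lemma lg_mono (p a b : ℝ) (ha : R < a) (hab : a ≤ b)
    (h : ∀ t ∈ Icc a b, -p ≤ t * deriv ω t / ω t) :
    Real.log (ω a) + p * Real.log a ≤ Real.log (ω b) + p * Real.log b := by
  have hm : MonotoneOn (fun t => Real.log (ω t) + p * Real.log t) (Icc a b) := by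
    apply monotoneOn_of_deriv_nonneg (convex_Icc a b) (lg_cont W p a b ha)
    · intro t ht
      rw [interior_Icc] at ht
      exact (lg_deriv W p t (ha.trans ht.1)).differentiableAt.differentiableWithinAt
    · intro t ht
      rw [interior_Icc] at ht
      rw [(lg_deriv W p t (ha.trans ht.1)).deriv]
      have := h t ⟨ht.1.le, ht.2.le⟩
      have ht0 : 0 < t := W.hR.trans (ha.trans ht.1)
      apply div_nonneg _ ht0.le
      linarith
  exact hm ⟨le_rfl, hab⟩ ⟨hab, le_rfl⟩ hab

lemma lg_anti (p a b : ℝ) (ha : R < a) (hab : a ≤ b)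
    (h : ∀ t ∈ Icc a b, t * deriv ω t / ω t ≤ -p) :
    Real.log (ω b) + p * Real.log b ≤ Real.log (ω a) + p * Real.log a := by
  have hm : AntitoneOn (fun t => Real.log (ω t) + p * Real.log t) (Icc a b) := by
    apply antitoneOn_of_deriv_nonpos (convex_Icc a b) (lg_cont W p a b ha)
    · intro t ht
      rw [interior_Icc] at ht
      exact (lg_deriv W p t (ha.trans ht.1)).differentiableAt.differentiableWithinAt
    · intro t ht
      rw [interior_Icc] at ht
      rw [(lg_deriv W p t (ha.trans ht.1)).deriv]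
      have := h t ⟨ht.1.le, ht.2.le⟩
      have ht0 : 0 < t := W.hR.trans (ha.trans ht.1)
      apply div_nonpos_of_nonpos_of_nonneg _ ht0.le
      linarith
  exact hm ⟨le_rfl, hab⟩ ⟨hab, le_rfl⟩ hab

/-- strict version -/
lemma lg_strict (p a b : ℝ) (ha : R < a) (hab : a < b)
    (h : ∀ t ∈ Icc a b, -p < t * deriv ω t / ω t) :
    Real.log (ω a) + p * Real.log a < Real.log (ω b) + p * Real.log b := by
  have hm : StrictMonoOn (fun t => Real.log (ω t) + p * Real.log t) (Icc a b) := by
    apply strictMonoOn_of_deriv_pos (convex_Icc a b) (lg_cont W p a b ha)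
    intro t ht
    rw [interior_Icc] at ht
    rw [(lg_deriv W p t (ha.trans ht.1)).deriv]
    have := h t ⟨ht.1.le, ht.2.le⟩
    have ht0 : 0 < t := W.hR.trans (ha.trans ht.1)
    apply div_pos _ ht0
    linarith
  exact hm ⟨le_rfl, hab.le⟩ ⟨hab.le, le_rfl⟩ hab

lemma s_anti {t t' : ℝ} (ht : R < t) (h : t ≤ t') :
    t' * deriv ω t' / ω t' ≤ t * deriv ω t / ω t :=
  W.hs ht (ht.trans_le h) h

/-- unimodality, inside -/
lemma unimod_in (p a b t : ℝ) (ha : R < a) (h1 : a ≤ t) (h2 : t ≤ b)
    (heq : Real.log (ω a) + p * Real.log a = Real.log (ω b) + p * Real.log b) :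
    Real.log (ω b) + p * Real.log b ≤ Real.log (ω t) + p * Real.log t := by
  by_cases hc : -p ≤ t * deriv ω t / ω t
  · rw [← heq]
    apply lg_mono W p a t ha h1
    intro x hx
    exact hc.trans (s_anti W (ha.trans_le hx.1) hx.2)
  · push Not at hc
    apply lg_anti W p t b (ha.trans_le h1) h2
    intro x hx
    exact (s_anti W (ha.trans_le h1) hx.1).trans hc.le

/-- unimodality, outside -/
lemma unimod_out (p a b t : ℝ) (ha : R < a) (hab : a < b) (h2 : b ≤ t)
    (heq : Real.log (ω a) + p * Real.log a = Real.log (ω b) + p * Real.log b) :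
    Real.log (ω t) + p * Real.log t ≤ Real.log (ω b) + p * Real.log b := by
  by_cases hc : b * deriv ω b / ω b ≤ -p
  · apply lg_anti W p b t (ha.trans hab) h2
    intro x hx
    exact (s_anti W (ha.trans hab) hx.1).trans hc
  · push Not at hc
    exfalso
    have := lg_strict W p a b ha hab (fun x hx => hc.trans_le (s_anti W (ha.trans_le hx.1) hx.2))
    linarith

/-- Case 3b -/
lemma case3b (j : ℕ) (ρ r : ℝ) (hρ : R < ρ) (hρr : ρ < r)
    (h : ω r * r ^ (j + 1) < ω ρ * ρ ^ (j + 1) / 2) :
    TT ω j r ≤ 2 * (ω r * r ^ (j + 1)) / (ω ρ * ρ ^ (j + 1)) * mm ω j := by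
  have hρ0 : 0 < ρ := W.hR.trans hρ
  have hr0 : 0 < r := hρ0.trans hρr
  have hwρ := W.hpos ρ hρ0.le
  have hwr := W.hpos r hr0.le
  set gr := ω r * r ^ (j + 1) with hgr
  set gρ := ω ρ * ρ ^ (j + 1) with hgρ
  have hgr0 : 0 < gr := by positivity
  have hgρ0 : 0 < gρ := by positivity
  have hlr : Real.log ρ < Real.log r := Real.log_lt_log hρ0 hρr
  set η := (Real.log gρ - Real.log gr) / (Real.log r - Real.log ρ) with hη
  have hη0 : 0 < η := by
    apply div_pos _ (by linarith)
    have : Real.log gr < Real.log gρ := Real.log_lt_log hgr0 (by linarith)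
    linarith
  set p : ℝ := (j + 1 : ℕ) + η with hp
  have lgr : Real.log gr = Real.log (ω r) + (j + 1 : ℕ) * Real.log r := by
    rw [hgr, Real.log_mul hwr.ne' (by positivity), Real.log_pow]
  have lgρ : Real.log gρ = Real.log (ω ρ) + (j + 1 : ℕ) * Real.log ρ := by
    rw [hgρ, Real.log_mul hwρ.ne' (by positivity), Real.log_pow]
  have heq : Real.log (ω ρ) + p * Real.log ρ = Real.log (ω r) + p * Real.log r := by
    have h1 : η * (Real.log r - Real.log ρ) = Real.log gρ - Real.log gr := by
      rw [hη, div_mul_cancel₀]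
      linarith
    rw [hp]
    linarith
  set Q := Real.exp (Real.log (ω r) + p * Real.log r) with hQ
  have hQ0 : 0 < Q := Real.exp_pos _
  -- pointwise representation
  have hrep : ∀ t : ℝ, 0 < t → ω t * t ^ j
      = Real.exp (Real.log (ω t) + p * Real.log t) * t ^ (-η - 1) := by
    intro t ht
    have hw := W.hpos t ht.le
    rw [Real.rpow_def_of_pos ht, ← Real.exp_add]
    have e : Real.log (ω t) + p * Real.log t + Real.log t * (-η - 1)
        = Real.log (ω t) + j * Real.log t := by
      rw [hp]; push_cast; ring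
    rw [e, Real.exp_add, Real.exp_log hw, ← Real.log_pow, Real.exp_log (by positivity)]
  have hQr : Q * r ^ (-η) = gr := by
    rw [hQ, Real.rpow_def_of_pos hr0, ← Real.exp_add]
    have e : Real.log (ω r) + p * Real.log r + Real.log r * -η = Real.log gr := by
      rw [lgr, hp]; ring
    rw [e, Real.exp_log hgr0]
  have hQρ : Q * ρ ^ (-η) = gρ := by
    rw [hQ, ← heq, Real.rpow_def_of_pos hρ0, ← Real.exp_add]
    have e : Real.log (ω ρ) + p * Real.log ρ + Real.log ρ * -η = Real.log gρ := by
      rw [lgρ, hp]; ring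
    rw [e, Real.exp_log hgρ0]
  -- tail upper bound
  have hT : TT ω j r ≤ gr / η := by
    have hint : IntegrableOn (fun t : ℝ => Q * t ^ (-η - 1)) (Ioi r) :=
      (integrableOn_Ioi_rpow_of_lt (by linarith) hr0).const_mul _
    have h1 : TT ω j r ≤ ∫ t in Ioi r, Q * t ^ (-η - 1) := by
      apply setIntegral_mono_on (int_T W j r hr0.le) hint measurableSet_Ioi
      intro t ht
      have ht' : r < t := ht
      rw [hrep t (hr0.trans ht')]
      apply mul_le_mul_of_nonneg_right _ (by have := hr0.trans ht'; positivity)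
      rw [hQ, Real.exp_le_exp]
      exact unimod_out W p ρ r t hρ hρr ht'.le heq
    rw [integral_const_mul, integral_Ioi_rpow_of_lt (by linarith) hr0] at h1
    have e : Q * (-r ^ (-η - 1 + 1) / (-η - 1 + 1)) = gr / η := by
      rw [← hQr]
      have : -η - 1 + 1 = -η := by ring
      rw [this]
      field_simp
    rw [e] at h1
    exact h1
  -- lower bound for the moment
  have hm : gρ / (2 * η) ≤ mm ω j := by
    refine le_trans ?_ (piece_le W j ρ r hρ0.le)
    rw [← intervalIntegral.integral_of_le hρr.le]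
    have hne : (0 : ℝ) ∉ uIcc ρ r := by
      rw [uIcc_of_le hρr.le]; intro h0; exact absurd h0.1 (not_le.mpr hρ0)
    have h1 : ∫ t in ρ..r, Q * t ^ (-η - 1) ≤ ∫ t in ρ..r, ω t * t ^ j := by
      apply intervalIntegral.integral_mono_on hρr.le
      · exact (intervalIntegral.intervalIntegrable_rpow (Or.inr hne)).const_mul _
      · rw [intervalIntegrable_iff_integrableOn_Ioc_of_le hρr.le]
        exact (W.hint j).mono_set (fun x hx => hρ0.trans hx.1)
      · intro t ht
        have ht0 : 0 < t := hρ0.trans_le ht.1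
        rw [hrep t ht0]
        apply mul_le_mul_of_nonneg_right _ (by positivity)
        rw [hQ, Real.exp_le_exp]
        exact unimod_in W p ρ r t hρ ht.1 ht.2 heq
    rw [intervalIntegral.integral_const_mul, integral_rpow (Or.inr ⟨by linarith, hne⟩)] at h1
    have e : Q * ((r ^ (-η - 1 + 1) - ρ ^ (-η - 1 + 1)) / (-η - 1 + 1)) = (gρ - gr) / η := by
      rw [← hQr, ← hQρ]
      have : -η - 1 + 1 = -η := by ring
      rw [this]
      field_simp
      ring
    rw [e] at h1
    refine le_trans ?_ h1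
    rw [div_le_div_iff₀ (by positivity) hη0]
    nlinarith
  have h5 : 1 / η ≤ 2 * mm ω j / gρ := by
    rw [div_le_div_iff₀ hη0 hgρ0]
    rw [div_le_iff₀ (by positivity)] at hm
    linarith
  calc TT ω j r ≤ gr / η := hT
    _ = gr * (1 / η) := by ring
    _ ≤ gr * (2 * mm ω j / gρ) := mul_le_mul_of_nonneg_left h5 hgr0.le
    _ = 2 * gr / gρ * mm ω j := by ring

/-- Case 2 -/
lemma case2 (j : ℕ) (r : ℝ) (hr : R < r)
    (h : 2 * ((j : ℝ) + 1) * LL ω r ≤ ω r) :
    TT ω j r ≤ 2 * r ^ (j + 1) * LL ω r := by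
  have hr0 : 0 < r := W.hR.trans hr
  set k2 : ℝ := 2 * ((j : ℝ) + 1) with hk2
  have hk0 : 0 < k2 := by positivity
  have hDd : ∀ t, R < t → HasDerivAt (fun t => ω t - k2 * LL ω t)
      (ω t / t * (t * deriv ω t / ω t + k2)) t := by
    intro t ht
    have ht0 : 0 < t := W.hR.trans ht
    have hw := W.hpos t ht0.le
    have h1 := (W.hd t ht).hasDerivAt.fun_sub ((L_deriv W t ht0).const_mul k2)
    refine h1.congr_deriv ?_
    field_simp
    ring
  -- D ≥ 0
  have hD : ∀ t, r ≤ t → 0 ≤ ω t - k2 * LL ω t := by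
    intro t ht
    have htR : R < t := hr.trans_le ht
    have ht0 : 0 < t := W.hR.trans htR
    by_cases hc : t * deriv ω t / ω t ≤ -k2
    · have hanti : AntitoneOn (fun t => ω t - k2 * LL ω t) (Ici t) := by
        apply antitoneOn_of_deriv_nonpos (convex_Ici t)
        · intro x hx
          exact (hDd x (htR.trans_le hx)).continuousAt.continuousWithinAt
        · intro x hx
          rw [interior_Ici] at hx
          exact (hDd x (htR.trans hx)).differentiableAt.differentiableWithinAt
        · intro x hx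
          rw [interior_Ici] at hx
          have hx' : t < x := hx
          rw [(hDd x (htR.trans hx')).deriv]
          have hw := W.hpos x (ht0.trans hx').le
          have hx0 : 0 < x := ht0.trans hx'
          apply mul_nonpos_of_nonneg_of_nonpos (by positivity)
          have := s_anti W htR hx'.le
          linarith
      have hlim : Tendsto (fun t => ω t - k2 * LL ω t) atTop (𝓝 (0 - k2 * 0)) :=
        (w_tendsto W).sub ((L_tendsto W).const_mul k2)
      rw [mul_zero, sub_zero] at hlim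
      refine le_of_tendsto hlim ?_
      filter_upwards [eventually_ge_atTop t] with x hx
      exact hanti (mem_Ici.mpr le_rfl) (mem_Ici.mpr hx) hx
    · push Not at hc
      have hmono : MonotoneOn (fun t => ω t - k2 * LL ω t) (Icc r t) := by
        apply monotoneOn_of_deriv_nonneg (convex_Icc r t)
        · intro x hx
          exact (hDd x (hr.trans_le hx.1)).continuousAt.continuousWithinAt
        · intro x hx
          rw [interior_Icc] at hx
          exact (hDd x (hr.trans hx.1)).differentiableAt.differentiableWithinAt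
        · intro x hx
          rw [interior_Icc] at hx
          rw [(hDd x (hr.trans hx.1)).deriv]
          have hx0 : 0 < x := hr0.trans hx.1
          have hw := W.hpos x hx0.le
          apply mul_nonneg (by positivity)
          have := s_anti W (hr.trans hx.1) hx.2.le
          linarith
      have := hmono ⟨le_rfl, ht⟩ ⟨ht, le_rfl⟩ ht
      simp only at this
      linarith
  have hGd : ∀ t, 0 < t → HasDerivAt (fun t => TT ω j t - 2 * (t ^ (j + 1) * LL ω t))
      (t ^ j * (ω t - k2 * LL ω t)) t := by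
    intro t ht0
    have h1 := (hasDerivAt_pow (j + 1) t).fun_mul (L_deriv W t ht0)
    have h2 := (T_deriv W j t ht0).fun_sub (h1.const_mul 2)
    refine h2.congr_deriv ?_
    have e : t ^ (j + 1) * -(ω t / t) = -(ω t * t ^ j) := by
      rw [pow_succ]; field_simp
    rw [e, hk2]
    push_cast
    ring
  have hmono : MonotoneOn (fun t => TT ω j t - 2 * (t ^ (j + 1) * LL ω t)) (Ici r) := by
    apply monotoneOn_of_deriv_nonneg (convex_Ici r)
    · intro x hx
      exact (hGd x (hr0.trans_le hx)).continuousAt.continuousWithinAt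
    · intro x hx
      rw [interior_Ici] at hx
      exact (hGd x (hr0.trans hx)).differentiableAt.differentiableWithinAt
    · intro x hx
      rw [interior_Ici] at hx
      have hx' : r < x := hx
      rw [(hGd x (hr0.trans hx')).deriv]
      have hx0 : 0 < x := hr0.trans hx'
      exact mul_nonneg (by positivity) (hD x hx'.le)
  have htk : Tendsto (fun t => t ^ (j + 1) * LL ω t) atTop (𝓝 0) := by
    refine squeeze_zero' ?_ ?_ (T_tendsto W j)
    · filter_upwards [eventually_gt_atTop 0] with t ht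
      have := L_pos W t ht
      positivity
    · filter_upwards [eventually_gt_atTop 0] with t ht
      exact tkL_le W j t ht
  have hlim : Tendsto (fun t => TT ω j t - 2 * (t ^ (j + 1) * LL ω t)) atTop (𝓝 (0 - 2 * 0)) :=
    (T_tendsto W j).sub (htk.const_mul 2)
  rw [mul_zero, sub_zero] at hlim
  have h9 : TT ω j r - 2 * (r ^ (j + 1) * LL ω r) ≤ 0 := by
    refine ge_of_tendsto hlim ?_
    filter_upwards [eventually_ge_atTop r] with x hx
    exact hmono (mem_Ici.mpr le_rfl) (mem_Ici.mpr hx) hx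
  linarith

/-- the key estimate -/
theorem star (ρ : ℝ) (hρ : R < ρ) : ∃ C : ℝ, 0 ≤ C ∧ ∀ (j : ℕ) (r : ℝ), ρ < r →
    TT ω j r ≤ C * (r / ρ) ^ (j + 1) * (((j : ℝ) + 1) * mm ω j) * LL ω r := by
  have hρ0 : 0 < ρ := W.hR.trans hρ
  have hwρ := W.hpos ρ hρ0.le
  have hwρ1 := W.hpos (ρ + 1) (by linarith)
  refine ⟨2 * ρ / ω (ρ + 1) + 4 / ω ρ, by positivity, fun j r hr => ?_⟩
  have hr0 : 0 < r := hρ0.trans hr
  have hLr := L_pos W r hr0
  have hwr := W.hpos r hr0.le
  have hmj := m_pos W j
  set C1 := 2 * ρ / ω (ρ + 1) with hC1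
  set C2 := 4 / ω ρ with hC2
  have hC10 : 0 < C1 := by positivity
  have hC20 : 0 < C2 := by positivity
  have hj0 : (0 : ℝ) ≤ j := Nat.cast_nonneg j
  have hX : 0 ≤ (r / ρ) ^ (j + 1) * (((j : ℝ) + 1) * mm ω j) * LL ω r := by positivity
  have hsum1 : C1 * ((r / ρ) ^ (j + 1) * (((j : ℝ) + 1) * mm ω j) * LL ω r)
      ≤ (C1 + C2) * (r / ρ) ^ (j + 1) * (((j : ℝ) + 1) * mm ω j) * LL ω r := by
    have := mul_nonneg hC20.le hX
    nlinarith
  have hsum2 : C2 * ((r / ρ) ^ (j + 1) * (((j : ℝ) + 1) * mm ω j) * LL ω r)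
      ≤ (C1 + C2) * (r / ρ) ^ (j + 1) * (((j : ℝ) + 1) * mm ω j) * LL ω r := by
    have := mul_nonneg hC10.le hX
    nlinarith
  by_cases hA : 2 * ((j : ℝ) + 1) * LL ω r ≤ ω r
  · refine le_trans ?_ hsum1
    refine (case2 W j r (hρ.trans hr) hA).trans ?_
    have hml := m_lower W j ρ hρ0.le
    have h1 : 2 * ρ ^ (j + 1) ≤ C1 * (((j : ℝ) + 1) * mm ω j) := by
      have h2 : mm ω j ≤ ((j : ℝ) + 1) * mm ω j := by nlinarith
      calc 2 * ρ ^ (j + 1) = C1 * (ω (ρ + 1) * ρ ^ j) := by
            rw [hC1]; field_simp; ring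
        _ ≤ C1 * (((j : ℝ) + 1) * mm ω j) := mul_le_mul_of_nonneg_left (hml.trans h2) hC10.le
    have h3 : r ^ (j + 1) = (r / ρ) ^ (j + 1) * ρ ^ (j + 1) := by
      rw [← mul_pow]; congr 1; field_simp
    calc 2 * r ^ (j + 1) * LL ω r = (r / ρ) ^ (j + 1) * LL ω r * (2 * ρ ^ (j + 1)) := by
          rw [h3]; ring
      _ ≤ (r / ρ) ^ (j + 1) * LL ω r * (C1 * (((j : ℝ) + 1) * mm ω j)) :=
          mul_le_mul_of_nonneg_left h1 (by positivity)
      _ = _ := by ring
  · push Not at hA
    refine le_trans ?_ hsum2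
    by_cases hB : ω ρ * ρ ^ (j + 1) / 2 ≤ ω r * r ^ (j + 1)
    · refine (T_le_m W j r hr0.le).trans ?_
      -- (r/ρ)^(j+1) (j+1) L ≥ ω ρ /4
      have h1 : ω ρ / 4 ≤ (r / ρ) ^ (j + 1) * ((j : ℝ) + 1) * LL ω r := by
        have h2 : ω ρ / 2 ≤ ω r * (r / ρ) ^ (j + 1) := by
          rw [div_pow, mul_div_assoc', le_div_iff₀ (by positivity)]
          linarith
        have h3 : ω r * (r / ρ) ^ (j + 1) ≤ (2 * ((j : ℝ) + 1) * LL ω r) * (r / ρ) ^ (j + 1) :=
          mul_le_mul_of_nonneg_right hA.le (by positivity)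
        linarith
      calc mm ω j = C2 * (ω ρ / 4) * mm ω j := by rw [hC2]; field_simp
        _ ≤ C2 * ((r / ρ) ^ (j + 1) * ((j : ℝ) + 1) * LL ω r) * mm ω j := by gcongr
        _ = _ := by ring
    · push Not at hB
      refine (case3b W j ρ r hρ hr hB).trans ?_
      have h1 : 2 * (ω r * r ^ (j + 1)) / (ω ρ * ρ ^ (j + 1))
          ≤ C2 * ((r / ρ) ^ (j + 1) * ((j : ℝ) + 1) * LL ω r) := by
        have h2 : 2 * (ω r * r ^ (j + 1)) / (ω ρ * ρ ^ (j + 1)) = (2 / ω ρ) * (r / ρ) ^ (j + 1) * ω r := by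
          rw [div_pow]; field_simp
        rw [h2, hC2]
        calc (2 / ω ρ) * (r / ρ) ^ (j + 1) * ω r
            ≤ (2 / ω ρ) * (r / ρ) ^ (j + 1) * (2 * ((j : ℝ) + 1) * LL ω r) :=
              mul_le_mul_of_nonneg_left hA.le (by positivity)
          _ = _ := by ring
      calc 2 * (ω r * r ^ (j + 1)) / (ω ρ * ρ ^ (j + 1)) * mm ω j
          ≤ C2 * ((r / ρ) ^ (j + 1) * ((j : ℝ) + 1) * LL ω r) * mm ω j :=
            mul_le_mul_of_nonneg_right h1 hmj.le
        _ = _ := by ring

end Pool.Agent.Canon
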